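import Pool.Agent.U293.FX.Stm

/-!
Project FX, package AF: integral affine automorphisms.
-/

set_option autoImplicit false

namespace Pool.Agent.U293.FXP.AF

open U722.FF MvPolynomial Pool.Agent.U293.PA Pool.Agent.U293.FC Pool.Agent.U293.FX

theorem X_lf (i : Fin 2) : (X i : Rg ℚ) = lf (Pi.single i 1) := by
  unfold lf
  fin_cases i
  · simp
  · simp

theorem coeff0 (u : Fin 2 → ℚ) (c : ℚ) : (lf u + C c).coeff 0 = c := by
  unfold lf
  simp

theorem lf_int (d : ℤ) (i : Fin 2) :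
    lf (d • (Pi.single i 1 : Fin 2 → ℚ)) = C (d : ℚ) * X i := by
  have h : (d • (Pi.single i 1 : Fin 2 → ℚ)) = (d : ℚ) • (Pi.single i 1 : Fin 2 → ℚ) := by
    funext j
    simp
  rw [h, lf_smul, ← X_lf]

section

variable {G : Type} [Group G] (ρ : G →* Au ℚ) (x : Au ℚ)

/-- the conjugate group -/
noncomputable def tt (g : G) : Au ℚ := x⁻¹ * ρ g * x

theorem tt_mul (g h : G) : tt ρ x (g * h) = tt ρ x g * tt ρ x h := by
  unfold tt
  rw [map_mul]
  group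

/-- the translation part -/
noncomputable def cc (g : G) (u : Fin 2 → ℚ) : ℚ := (tt ρ x g (lf u)).coeff 0

variable {ρ x}

theorem F1 {g : G} (hg : ρ g ∈ SG ℤ x) (h1 : lam (tt ρ x g) = 1) (u : Fin 2 → ℚ) :
    tt ρ x g (lf u) = lf u + C (cc ρ x g u) := by
  obtain ⟨c, hc⟩ := aff_lf (SG_aff hg) u
  have hc' : tt ρ x g (lf u) = lf (lam (tt ρ x g) u) + C c := hc
  rw [h1] at hc'
  have hc2 : tt ρ x g (lf u) = lf u + C c := hc'
  have h2 : cc ρ x g u = c := by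
    unfold cc
    rw [hc2, coeff0]
  rw [h2, hc2]

theorem cc_mul {g h : G} (hg : ρ g ∈ SG ℤ x) (hh : ρ h ∈ SG ℤ x) (g1 : lam (tt ρ x g) = 1)
    (h1 : lam (tt ρ x h) = 1) (u : Fin 2 → ℚ) :
    cc ρ x (g * h) u = cc ρ x g u + cc ρ x h u := by
  have h2 : tt ρ x (g * h) (lf u) = lf u + C (cc ρ x g u + cc ρ x h u) := by
    rw [tt_mul, AlgEquiv.mul_apply, F1 hh h1, map_add, gC, F1 hg g1, C_add]
    ring
  have h3 : cc ρ x (g * h) u = (lf u + C (cc ρ x g u + cc ρ x h u)).coeff 0 := by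
    rw [← h2]
    rfl
  rw [h3, coeff0]

theorem F2 {g : G} (hg : ρ g ∈ SG ℤ x) (h1 : lam (tt ρ x g) = 1) {u : Fin 2 → ℚ}
    (hu : u ∈ LL ℤ x) : ∃ z : ℤ, (z : ℚ) = cc ρ x g u := by
  obtain ⟨c, hc⟩ := hu
  have h2 : ρ g (x (lf u) + C c) ∈ SR (Dh ℤ ℚ) := map_SR hg.1.1 hc
  have h3 : ρ g (x (lf u)) = x (tt ρ x g (lf u)) := by
    unfold tt
    rw [AlgEquiv.mul_apply, AlgEquiv.mul_apply, ap_inv]
  rw [map_add, gC, h3, F1 hg h1, map_add, gC] at h2
  have h4 := sub_mem h2 hc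
  have h5 : x (lf u) + C (cc ρ x g u) + C c - (x (lf u) + C c) = C (cc ρ x g u) := by ring
  rw [h5] at h4
  have h6 := mem_SR.1 h4 0
  rw [coeff_C, if_pos rfl] at h6
  obtain ⟨z, hz⟩ := h6
  exact ⟨z, hz⟩

theorem F3 (hinj : Function.Injective ρ) {g : G} (hg : ρ g ∈ SG ℤ x) (h1 : lam (tt ρ x g) = 1)
    {d : ℤ} (hd : d ≠ 0) (h : ∀ i : Fin 2, cc ρ x g (d • (Pi.single i 1 : Fin 2 → ℚ)) = 0) :
    g = 1 := by
  have hX : ∀ i : Fin 2, tt ρ x g (X i) = X i := by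
    intro i
    have h2 := F1 hg h1 (d • (Pi.single i 1 : Fin 2 → ℚ))
    rw [h i, C_0, add_zero, lf_int, map_mul, gC] at h2
    refine mul_left_cancel₀ ?_ h2
    rw [Ne, C_eq_zero]
    exact_mod_cast hd
  have h3 : tt ρ x g = 1 := ext_of (hX 0) (hX 1)
  have h4 : ρ g = 1 := by
    have h5 : ρ g = x * tt ρ x g * x⁻¹ := by
      unfold tt
      group
    rw [h5, h3]
    group
  exact hinj (by rw [h4, map_one])

end

theorem mat_sq (A : Matrix (Fin 2) (Fin 2) ℤ) (hdet : A.det = 1) :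
    ∃ τ : ℤ, A * A = τ • A - 1 := by
  rw [Matrix.det_fin_two] at hdet
  refine ⟨A 0 0 + A 1 1, ?_⟩
  ext i j
  fin_cases i <;> fin_cases j <;>
    simp [Matrix.mul_apply, Fin.sum_univ_two, -zsmul_eq_mul] <;> linarith


section main

variable {G : Type} [Group G]

/-- the algebra of endomorphisms: an element of finite order of the algebra with `L² = τ L - 1` -/
theorem uni {A : Type} [Ring A] (htf : ∀ (m : ℤ) (U : A), m ≠ 0 → m • U = 0 → U = 0) (L : A)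
    (hL : L * L = (2 : ℤ) • L - 1) {n : ℕ} (hn : 0 < n) (hLn : L ^ n = 1) : L = 1 := by
  obtain ⟨E, hE⟩ : ∃ E : A, E = L - 1 := ⟨_, rfl⟩
  have hLE : L = 1 + E := by rw [hE]; abel
  have hE2 : E * E = 0 := by
    rw [hE]
    have : (L - 1) * (L - 1) = L * L - (2 : ℤ) • L + 1 := by
      rw [two_smul]
      noncomm_ring
    rw [this, hL]
    abel
  have hpw : ∀ k : ℕ, L ^ k = 1 + (k : ℤ) • E := by
    intro k
    induction k with
    | zero => simp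
    | succ k ih =>
      rw [pow_succ, ih, hLE, add_mul, one_mul, mul_add, mul_one, smul_mul_assoc, hE2, smul_zero,
        add_zero]
      push_cast
      rw [add_smul, one_smul]
      abel
  have h3 : (n : ℤ) • E = 0 := by
    have := hpw n
    rw [hLn] at this
    exact (left_eq_add.1 this)
  rw [hLE, htf n E (by exact_mod_cast hn.ne') h3, add_zero]


/-- the translations of the kernel -/
theorem kerv {P : Type} [Group P] {ρ : G →* Au ℚ} {x : Au ℚ} (hinj : Function.Injective ρ)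
    (hSG : ∀ g, ρ g ∈ SG ℤ x) (φ : G →* P) (hker : ∀ h : G, φ h = 1 → lam (tt ρ x h) = 1) :
    ∃ v : ↥φ.ker →* Multiplicative (Fin 2 → ℤ), Function.Injective v := by
  obtain ⟨d, hd, hdm⟩ := exists_mul_mem (D := ℤ) (K := ℚ) x
  have hk : ∀ h : ↥φ.ker, lam (tt ρ x (h : G)) = 1 := fun h => hker _ h.2
  refine ⟨MonoidHom.mk' (fun h => Multiplicative.ofAdd fun i =>
      (cc ρ x (h : G) (d • (Pi.single i 1 : Fin 2 → ℚ))).num) ?_, ?_⟩
  · intro g h
    apply Multiplicative.toAdd.injective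
    funext i
    change (cc ρ x ((g : G) * (h : G)) (d • (Pi.single i 1 : Fin 2 → ℚ))).num =
      (cc ρ x (g : G) (d • (Pi.single i 1 : Fin 2 → ℚ))).num +
      (cc ρ x (h : G) (d • (Pi.single i 1 : Fin 2 → ℚ))).num
    obtain ⟨z, hz⟩ := F2 (hSG (g : G)) (hk g) (hdm i)
    obtain ⟨z', hz'⟩ := F2 (hSG (h : G)) (hk h) (hdm i)
    rw [cc_mul (hSG _) (hSG _) (hk g) (hk h), ← hz, ← hz', ← Int.cast_add, Rat.num_intCast,
      Rat.num_intCast, Rat.num_intCast]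
  · rw [injective_iff_map_eq_one]
    intro h h0
    apply Subtype.ext
    refine F3 hinj (hSG _) (hk h) hd fun i => ?_
    have h1 : (cc ρ x (h : G) (d • (Pi.single i 1 : Fin 2 → ℚ))).num = 0 :=
      congrFun (congrArg Multiplicative.toAdd h0) i
    exact Rat.num_eq_zero.1 h1

/-- without the eigenvalue one -/
theorem noeig {ρ : G →* Au ℚ} {x : Au ℚ} (hinj : Function.Injective ρ)
    (hSG : ∀ g, ρ g ∈ SG ℤ x) {g : G} {n : ℕ} (hs1 : lam (tt ρ x (g ^ n)) = 1) {τ : ℤ} (h2 : τ ≠ 2)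
    (hrel : ∀ u ∈ LL ℤ x, lam (tt ρ x g) (lam (tt ρ x g) u) = τ • lam (tt ρ x g) u - u) :
    g ^ n = 1 := by
  obtain ⟨d, hd, hdm⟩ := exists_mul_mem (D := ℤ) (K := ℚ) x
  refine F3 hinj (hSG _) hs1 hd fun i => ?_
  -- invariance of the translation part
  have hinv : ∀ u : Fin 2 → ℚ, cc ρ x (g ^ n) (lam (tt ρ x g) u) = cc ρ x (g ^ n) u := by
    intro u
    obtain ⟨c, hc⟩ := aff_lf (SG_aff (hSG g)) u
    have hc' : tt ρ x g (lf u) = lf (lam (tt ρ x g) u) + C c := hc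
    have h3 : tt ρ x (g ^ n) (tt ρ x g (lf u)) = tt ρ x g (tt ρ x (g ^ n) (lf u)) := by
      rw [← AlgEquiv.mul_apply, ← AlgEquiv.mul_apply, ← tt_mul, ← tt_mul, ← pow_succ, ← pow_succ']
    rw [hc', F1 (hSG _) hs1, map_add, map_add, gC, gC, F1 (hSG _) hs1, hc'] at h3
    have h4 : (C (cc ρ x (g ^ n) (lam (tt ρ x g) u)) : Rg ℚ) = C (cc ρ x (g ^ n) u) := by
      linear_combination h3
    exact C_injective _ _ h4
  have hadd : ∀ u w : Fin 2 → ℚ, cc ρ x (g ^ n) (u + w) =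
      cc ρ x (g ^ n) u + cc ρ x (g ^ n) w := by
    intro u w
    unfold cc
    rw [lf_add, map_add, coeff_add]
  have hsm : ∀ (r : ℚ) (u : Fin 2 → ℚ), cc ρ x (g ^ n) (r • u) = r * cc ρ x (g ^ n) u := by
    intro r u
    unfold cc
    rw [lf_smul, map_mul, gC, coeff_C_mul]
  obtain ⟨u, hu⟩ : ∃ u : Fin 2 → ℚ, u = d • (Pi.single i 1 : Fin 2 → ℚ) := ⟨_, rfl⟩
  have hrel2 := hrel u (by rw [hu]; exact hdm i)
  have h5 : lam (tt ρ x g) (lam (tt ρ x g) u) + u = (τ : ℚ) • lam (tt ρ x g) u := by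
    rw [hrel2]
    funext j
    simp
  have h6 := congrArg (cc ρ x (g ^ n)) h5
  rw [hadd, hsm, hinv, hinv] at h6
  rw [← hu]
  have h7 : ((τ : ℚ) - 2) * cc ρ x (g ^ n) u = 0 := by linear_combination -h6
  rcases mul_eq_zero.1 h7 with h8 | h8
  · exfalso
    apply h2
    have : (τ : ℚ) = 2 := by linarith
    exact_mod_cast this
  · exact h8


theorem absasm {E : Type} [Ring E] (m : E ≃+* Matrix (Fin 2) (Fin 2) ℤ) (R : G →* E) :
    ∃ φ : G →* Matrix.GeneralLinearGroup (Fin 2) ℤ, ∀ g, (φ g).1 = m (R g) :=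
  ⟨(Units.map (m : E →* Matrix (Fin 2) (Fin 2) ℤ)).comp (MonoidHom.toHomUnits R), fun _ => rfl⟩

theorem exR {ρ : G →* Au ℚ} {x : Au ℚ} (hSG : ∀ g, ρ g ∈ SG ℤ x) :
    ∃ R : G →* Module.End ℤ (LL ℤ x),
      (∀ g (u : LL ℤ x), ((R g u : LL ℤ x) : Fin 2 → ℚ) = lam (tt ρ x g) (u : Fin 2 → ℚ)) ∧
      ∀ g, R g = 1 → lam (tt ρ x g) = 1 :=
  by
  obtain ⟨ρ', hρ'⟩ : ∃ ρ' : G →* SG ℤ x, ∀ g, ((ρ' g : SG ℤ x) : Au ℚ) = ρ g :=
    ⟨ρ.codRestrict (SG ℤ x) hSG, fun _ => rfl⟩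
  refine ⟨(rho ℤ x).comp ρ', ?_, ?_⟩
  · intro g u
    have h1 := rho_apply x (ρ' g) u
    rw [hρ'] at h1
    rw [MonoidHom.comp_apply, h1]
    rfl
  · intro g h
    rw [MonoidHom.comp_apply] at h
    have h1 := rho_ker h
    rw [hρ'] at h1
    exact h1

/-- Package AF. -/
theorem t_AF : S_FA → S_AF := by
  intro hFA G _ ρ x hinj hnt hfg hSG
  obtain ⟨b⟩ := basis_LL (D := ℤ) (K := ℚ) x
  obtain ⟨R, hR, hR1⟩ := exR hSG
  obtain ⟨m, -⟩ : ∃ m : Module.End ℤ (LL ℤ x) ≃+* Matrix (Fin 2) (Fin 2) ℤ, True :=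
    ⟨(LinearMap.toMatrixAlgEquiv b).toRingEquiv, trivial⟩
  obtain ⟨φ, hval⟩ := absasm m R
  have hφ1 : ∀ g, φ g = 1 ↔ R g = 1 := by
    intro g
    constructor
    · intro h
      have h2 : m (R g) = 1 := by
        rw [← hval, h]
        rfl
      exact (map_eq_one_iff m m.injective).1 h2
    · intro h
      apply Units.ext
      rw [hval, h, map_one]
      rfl
  obtain ⟨v, hv⟩ := kerv hinj hSG φ fun h h0 => hR1 h ((hφ1 h).1 h0)
  refine hFA G φ hnt hfg ⟨2, v, hv⟩ ?_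
  intro g n hn hpow hdet
  rw [hφ1]
  have hLn : R g ^ n = 1 := by
    rw [← map_pow, ← hφ1, map_pow]
    exact hpow
  -- the characteristic polynomial
  obtain ⟨τ, hτ⟩ : ∃ τ : ℤ, R g * R g = τ • R g - 1 := by
    obtain ⟨τ, h1⟩ := mat_sq (φ g).1 hdet
    rw [hval] at h1
    refine ⟨τ, m.injective ?_⟩
    rw [map_mul, map_sub, map_zsmul, map_one]
    exact h1
  have htf : ∀ (c : ℤ) (U : Module.End ℤ (LL ℤ x)), c ≠ 0 → c • U = 0 → U = 0 := by
    intro c U hc h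
    apply LinearMap.ext
    intro u
    apply Subtype.ext
    have h1 : c • ((U u : LL ℤ x) : Fin 2 → ℚ) = 0 := by
      have h3 := congrArg (fun f : Module.End ℤ (LL ℤ x) => ((f u : LL ℤ x) : Fin 2 → ℚ)) h
      exact h3
    exact (smul_eq_zero.1 h1).resolve_left hc
  by_cases h2 : τ = 2
  · rw [h2] at hτ
    exact uni htf (R g) hτ hn hLn
  · have hgn : g ^ n = 1 := by
      refine noeig hinj hSG (hR1 _ (by rw [map_pow]; exact hLn)) h2 ?_
      intro u hu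
      have h3 := congrArg (fun f : Module.End ℤ (LL ℤ x) =>
        ((f ⟨u, hu⟩ : LL ℤ x) : Fin 2 → ℚ)) hτ
      have h4 : ((R g (R g ⟨u, hu⟩) : LL ℤ x) : Fin 2 → ℚ) =
        τ • ((R g ⟨u, hu⟩ : LL ℤ x) : Fin 2 → ℚ) - u := h3
      rw [hR, hR] at h4
      exact h4
    rw [hnt g n hn hgn, map_one]

end main

end Pool.Agent.U293.FXP.AF
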