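import Pool.Agent.U293.FX.Stm

set_option autoImplicit false

/-!
# Project FX, package DI (helper571): groups over the infinite dihedral group
-/

namespace Pool.Agent.U293.FXP.DI

open U722.FF MulAction
open Pool.Agent.U884.FFP (LZ line line_adj line_tree)

/-- `f g` is the map `m ↦ ε m + c` -/
def Dih {G : Type} [Group G] (f : G →* Equiv.Perm ℤ) : Prop :=
  ∀ g : G, ∃ ε c : ℤ, (ε = 1 ∨ ε = -1) ∧ ∀ m : ℤ, f g m = ε * m + c

section

variable {G : Type} [Group G] (f : G →* Equiv.Perm ℤ)

/-- the sign -/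
def ee (g : G) : ℤ := f g 1 - f g 0

/-- the translation part -/
def cc (g : G) : ℤ := f g 0

variable {f}

lemma ee_or (hf : Dih f) (g : G) : ee f g = 1 ∨ ee f g = -1 := by
  obtain ⟨ε, c, h1, h2⟩ := hf g
  unfold ee
  rw [h2, h2]
  rcases h1 with h1 | h1
  · left
    rw [h1]
    ring
  · right
    rw [h1]
    ring

lemma ee_sq (hf : Dih f) (g : G) : ee f g * ee f g = 1 := by
  rcases ee_or hf g with h | h <;> rw [h] <;> norm_num

lemma eval (hf : Dih f) (g : G) (m : ℤ) : f g m = ee f g * m + cc f g := by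
  obtain ⟨ε, c, h1, h2⟩ := hf g
  unfold ee cc
  rw [h2, h2, h2]
  ring

lemma cc_mul (hf : Dih f) (g h : G) : cc f (g * h) = ee f g * cc f h + cc f g := by
  show f (g * h) 0 = _
  rw [map_mul, Equiv.Perm.mul_apply, eval hf g]
  rfl

lemma ee_mul (hf : Dih f) (g h : G) : ee f (g * h) = ee f g * ee f h := by
  have h1 : f (g * h) 1 = ee f g * (f h 1) + cc f g := by
    rw [map_mul, Equiv.Perm.mul_apply, eval hf g]
  have h2 : f (g * h) 0 = ee f g * (f h 0) + cc f g := by
    rw [map_mul, Equiv.Perm.mul_apply, eval hf g]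
  show f (g * h) 1 - f (g * h) 0 = ee f g * (f h 1 - f h 0)
  rw [h1, h2]
  ring

lemma ee_one : ee f (1 : G) = 1 := by
  unfold ee
  rw [map_one f]
  simp

lemma cc_one : cc f (1 : G) = 0 := by
  unfold cc
  rw [map_one f]
  simp

lemma ker_iff (hf : Dih f) (g : G) : f g = 1 ↔ ee f g = 1 ∧ cc f g = 0 := by
  constructor
  · intro h
    unfold ee cc
    rw [h]
    simp
  · rintro ⟨h1, h2⟩
    ext m
    rw [eval hf, h1, h2]
    simp

/-- the action on the line -/
@[instance_reducible] def act (hf : Dih f) : MulAction G LZ where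
  smul g x := ⟨ee f g * x.k + 2 * cc f g⟩
  one_smul x := by
    apply LZ.ext
    show ee f (1 : G) * x.k + 2 * cc f (1 : G) = x.k
    rw [ee_one, cc_one]
    ring
  mul_smul g h x := by
    apply LZ.ext
    show ee f (g * h) * x.k + 2 * cc f (g * h) = ee f g * (ee f h * x.k + 2 * cc f h) + 2 * cc f g
    rw [ee_mul hf, cc_mul hf]
    ring

/-- the sign as a homomorphism -/
def eeHom (hf : Dih f) : G →* ℤˣ where
  toFun g := ⟨ee f g, ee f g, ee_sq hf g, ee_sq hf g⟩
  map_one' := Units.ext ee_one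
  map_mul' g h := Units.ext (ee_mul hf g h)

lemma eeHom_iff (hf : Dih f) (g : G) : eeHom hf g = 1 ↔ ee f g = 1 := by
  rw [Units.ext_iff]
  rfl

/-- the group is finitely generated -/
theorem fg (hf : Dih f) (hN : Group.FG ↥f.ker) : Group.FG G := by
  classical
  -- generators of the kernel
  obtain ⟨S, hS⟩ := Group.fg_def.1 hN
  -- the translations
  let T : AddSubgroup ℤ :=
    { carrier := {c | ∃ g : G, ee f g = 1 ∧ cc f g = c}
      zero_mem' := ⟨1, ee_one, cc_one⟩
      add_mem' := by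
        rintro a b ⟨g, h1, h2⟩ ⟨g', h3, h4⟩
        refine ⟨g * g', ?_, ?_⟩
        · rw [ee_mul hf, h1, h3, one_mul]
        · rw [cc_mul hf, h1, h2, h4]
          ring
      neg_mem' := by
        rintro a ⟨g, h1, h2⟩
        have e1 : ee f g⁻¹ = 1 := by
          have := ee_mul hf g g⁻¹
          rw [mul_inv_cancel, ee_one, h1, one_mul] at this
          exact this.symm
        refine ⟨g⁻¹, e1, ?_⟩
        have := cc_mul hf g g⁻¹
        rw [mul_inv_cancel, cc_one, h1, h2] at this
        linarith }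
  obtain ⟨k, hk⟩ := Int.subgroup_cyclic T
  have hkT : k ∈ T := by
    rw [hk]
    exact AddSubgroup.subset_closure rfl
  obtain ⟨g₀, hg1, hg2⟩ := hkT
  -- powers of `g₀`
  have hpow : ∀ j : ℤ, ee f (g₀ ^ j) = 1 ∧ cc f (g₀ ^ j) = j * k := by
    have hn : ∀ j : ℕ, ee f (g₀ ^ j) = 1 ∧ cc f (g₀ ^ j) = j * k := by
      intro j
      induction j with
      | zero => simp [ee_one, cc_one]
      | succ j ih =>
        rw [pow_succ, ee_mul hf, cc_mul hf, ih.1, ih.2, hg1, hg2]
        refine ⟨by norm_num, ?_⟩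
        push_cast
        ring
    intro j
    obtain ⟨m, rfl | rfl⟩ := j.eq_nat_or_neg
    · rw [zpow_natCast]
      exact hn m
    · rw [zpow_neg, zpow_natCast]
      have e1 := ee_mul hf (g₀ ^ m) (g₀ ^ m)⁻¹
      have e2 := cc_mul hf (g₀ ^ m) (g₀ ^ m)⁻¹
      rw [mul_inv_cancel, ee_one, (hn m).1, one_mul] at e1
      rw [mul_inv_cancel, cc_one, (hn m).1, (hn m).2] at e2
      refine ⟨e1.symm, ?_⟩
      linarith
  obtain ⟨r, hr⟩ : ∃ r : G, (∃ g, ee f g = -1) → ee f r = -1 := by
    by_cases h : ∃ g, ee f g = -1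
    · obtain ⟨g, hg⟩ := h
      exact ⟨g, fun _ => hg⟩
    · exact ⟨1, fun h' => absurd h' h⟩
  refine Group.fg_def.2
    ⟨insert g₀ (insert r (S.image (fun x : ↥f.ker => (x : G)))), ?_⟩
  obtain ⟨H, hH⟩ : ∃ H : Subgroup G, H = Subgroup.closure
    ((insert g₀ (insert r (S.image (fun x : ↥f.ker => (x : G)))) : Finset G) : Set G) := ⟨_, rfl⟩
  rw [← hH]
  have m0 : g₀ ∈ H := by
    rw [hH]
    exact Subgroup.subset_closure (by simp)
  have mr : r ∈ H := by
    rw [hH]
    exact Subgroup.subset_closure (by simp)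
  have mN : ∀ g : G, f g = 1 → g ∈ H := by
    intro g hg
    have h1 : Subgroup.closure (S : Set ↥f.ker) ≤ H.comap f.ker.subtype := by
      rw [Subgroup.closure_le]
      intro x hx
      show (x : G) ∈ H
      rw [hH]
      refine Subgroup.subset_closure ?_
      simp only [Finset.coe_insert, Finset.coe_image]
      exact Or.inr (Or.inr ⟨x, hx, rfl⟩)
    rw [hS] at h1
    exact h1 (Subgroup.mem_top (⟨g, hg⟩ : ↥f.ker))
  have m1 : ∀ g : G, ee f g = 1 → g ∈ H := by
    intro g hg
    have h1 : cc f g ∈ T := ⟨g, hg, rfl⟩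
    rw [hk, AddSubgroup.mem_closure_singleton] at h1
    obtain ⟨j, hj⟩ := h1
    have h2 : g * g₀ ^ (-j) ∈ H := by
      apply mN
      rw [ker_iff hf, ee_mul hf, cc_mul hf, hg, (hpow (-j)).1, (hpow (-j)).2, ← hj]
      simp
    have h3 : g = (g * g₀ ^ (-j)) * g₀ ^ j := by
      rw [mul_assoc, ← zpow_add]
      simp
    rw [h3]
    exact H.mul_mem h2 (H.zpow_mem m0 j)
  rw [eq_top_iff]
  intro g _
  rcases ee_or hf g with h | h
  · exact m1 g h
  · have h1 : g * r ∈ H := by
      apply m1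
      rw [ee_mul hf, h, hr ⟨g, h⟩]
      norm_num
    have h2 : g = (g * r) * r⁻¹ := by group
    rw [h2]
    exact H.mul_mem h1 (H.inv_mem mr)

end

open U722.FF in
theorem core (TT : S_TT) (AB : S_AB)
    (hVA : ∀ (G : Type) [Group G] (ε : G →* ℤˣ), NoTor G →
      (∀ a b : G, ε a = 1 → ε b = 1 → a * b = b * a) → Group.FG ↥ε.ker → TF G ∧ Group.FG G)
    (G : Type) [Group G] (f : G →* Equiv.Perm ℤ) (ht : NoTor G) (hf : Dih f)
    (hc : ∀ a b : G, f a = 1 → f b = 1 → a * b = b * a) (hN : Group.FG ↥f.ker) :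
    TF G ∧ Group.FG G := by
  have hG := fg hf hN
  refine ⟨?_, hG⟩
  have htH : ∀ H : Subgroup G, NoTor ↥H := by
    intro H g k hk hg
    apply Subtype.ext
    exact ht g.1 k hk (by
      have := congrArg Subtype.val hg
      simpa using this)
  let _ : MulAction G LZ := act hf
  have smul_k : ∀ (g : G) (x : LZ), (g • x).k = ee f g * x.k + 2 * cc f g := fun _ _ => rfl
  have hNTF : TF ↥f.ker := by
    apply AB _ _ hN (htH _)
    intro a b
    apply Subtype.ext
    exact hc a.1 b.1 a.2 b.2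
  apply TT G LZ line hG line_tree
  · intro g u v h
    rw [line_adj] at h ⊢
    rw [smul_k, smul_k]
    rcases ee_or hf g with e | e <;> rw [e] <;> omega
  · intro g u v h h1 h2
    rw [line_adj] at h
    have e1 := congrArg LZ.k h1
    have e2 := congrArg LZ.k h2
    rw [smul_k] at e1 e2
    rcases ee_or hf g with e | e <;> rw [e] at e1 e2 <;> omega
  · intro u v h
    have e : stabilizer G u ⊓ stabilizer G v = f.ker := by
      ext g
      rw [Subgroup.mem_inf, mem_stabilizer_iff, mem_stabilizer_iff, MonoidHom.mem_ker,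
        ker_iff hf]
      rw [line_adj] at h
      constructor
      · rintro ⟨h1, h2⟩
        have e1 := congrArg LZ.k h1
        have e2 := congrArg LZ.k h2
        rw [smul_k] at e1 e2
        rcases ee_or hf g with e | e <;> rw [e] at e1 e2 ⊢ <;> omega
      · rintro ⟨h1, h2⟩
        constructor
        · apply LZ.ext
          rw [smul_k, h1, h2]
          ring
        · apply LZ.ext
          rw [smul_k, h1, h2]
          ring
    rw [e]
    exact ⟨hNTF, hN⟩
  · intro v hS
    refine (hVA ↥(stabilizer G v) ((eeHom hf).comp (stabilizer G v).subtype) (htH _) ?_ ?_).1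
    · intro a b ha hb
      have key : ∀ x : ↥(stabilizer G v), ((eeHom hf).comp (stabilizer G v).subtype) x = 1 →
          f x.1 = 1 := by
        intro x hx
        have h1 : ee f x.1 = 1 := (eeHom_iff hf x.1).1 hx
        have h2 := congrArg LZ.k (mem_stabilizer_iff.1 x.2)
        rw [smul_k, h1] at h2
        rw [ker_iff hf]
        exact ⟨h1, by omega⟩
      apply Subtype.ext
      exact hc a.1 b.1 (key a ha) (key b hb)
    · -- the kernel is a quotient of `f.ker`
      have hmem : ∀ x : ↥f.ker, x.1 ∈ stabilizer G v := by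
        intro x
        rw [mem_stabilizer_iff]
        have h1 := (ker_iff hf x.1).1 x.2
        apply LZ.ext
        rw [smul_k, h1.1, h1.2]
        ring
      let φ : ↥f.ker →* ↥((eeHom hf).comp (stabilizer G v).subtype).ker :=
        { toFun := fun x => ⟨⟨x.1, hmem x⟩, (eeHom_iff hf x.1).2 ((ker_iff hf x.1).1 x.2).1⟩
          map_one' := rfl
          map_mul' := fun _ _ => rfl }
      have := hN
      refine Group.fg_of_surjective (f := φ) ?_
      rintro ⟨⟨x, hx⟩, hx2⟩
      have h1 : ee f x = 1 := (eeHom_iff hf x).1 hx2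
      have h2 := congrArg LZ.k (mem_stabilizer_iff.1 hx)
      rw [smul_k, h1] at h2
      exact ⟨⟨x, (ker_iff hf x).2 ⟨h1, by omega⟩⟩, rfl⟩

theorem t_DI : Pool.Agent.U293.FX.S_VA → Pool.Agent.U293.FX.S_DI :=
  fun hVA G _ f ht hf hc hN => core U722.FF.TT U722.FF.AB hVA G f ht hf hc hN

end Pool.Agent.U293.FXP.DI
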