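import Pool.Agent.U293.FX.Stm

/-!
# Project FX, package TRF: finitely generated groups of triangular automorphisms have bounded degree
-/

set_option autoImplicit false

namespace Pool.Agent.U293.FXP.TRF

open MvPolynomial Pool.Agent.U293.PA Pool.Agent.U293.FX

theorem lin_deg (b c : ℚ) : (Polynomial.C b * Polynomial.X + Polynomial.C c).natDegree ≤ 1 :=
  Polynomial.natDegree_linear_le

theorem comp_deg {d : ℕ} {p : Polynomial ℚ} (hp : p.natDegree ≤ d) (b c : ℚ) :
    (p.comp (Polynomial.C b * Polynomial.X + Polynomial.C c)).natDegree ≤ d := by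
  refine Polynomial.natDegree_comp_le.trans ?_
  calc p.natDegree * (Polynomial.C b * Polynomial.X + Polynomial.C c).natDegree
      ≤ d * 1 := Nat.mul_le_mul hp (lin_deg b c)
    _ = d := mul_one d

theorem C_mul_deg {d : ℕ} {p : Polynomial ℚ} (hp : p.natDegree ≤ d) (a : ℚ) :
    (Polynomial.C a * p).natDegree ≤ d :=
  (Polynomial.natDegree_C_mul_le a p).trans hp

/-- the triangular automorphisms of degree at most `d` -/
def TriSub (d : ℕ) : Subgroup (Au ℚ) where
  carrier := {t | Tri d t}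
  one_mem' := ⟨1, 1, 0, 0, by simp, by simp, by simp⟩
  mul_mem' := by
    rintro g h ⟨a, b, c, p, hp, h0, h1⟩ ⟨a', b', c', p', hp', h0', h1'⟩
    refine ⟨a' * a, b' * b, b' * c + c',
      Polynomial.C a' * p + p'.comp (Polynomial.C b * Polynomial.X + Polynomial.C c), ?_, ?_, ?_⟩
    · exact (Polynomial.natDegree_add_le _ _).trans (max_le (C_mul_deg hp a') (comp_deg hp' b c))
    · rw [AlgEquiv.mul_apply, h0', map_add, map_mul, gC, g_aeval, h0, h1, aeval_lin, map_add]
      simp only [map_mul, Polynomial.aeval_C, MvPolynomial.algebraMap_eq]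
      ring
    · rw [AlgEquiv.mul_apply, h1', map_add, map_mul, gC, gC, h1]
      simp only [C_add, C_mul]
      ring
  inv_mem' := by
    rintro g ⟨a, b, c, p, hp, h0, h1⟩
    obtain ⟨ha, hb⟩ := tri_ne h0 h1
    have e1 : C a⁻¹ * C a = (1 : Rg ℚ) := by rw [← C_mul, inv_mul_cancel₀ ha, C_1]
    have e2 : C b⁻¹ * C b = (1 : Rg ℚ) := by rw [← C_mul, inv_mul_cancel₀ hb, C_1]
    have e3 : (g⁻¹ : Au ℚ) (X 1) = C (b⁻¹) * X 1 + C (-(b⁻¹ * c)) := by
      have := congrArg (g⁻¹ : Au ℚ) h1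
      rw [inv_ap, map_add, map_mul, gC, gC] at this
      rw [C_neg, C_mul]
      linear_combination (-((g⁻¹ : Au ℚ) (X 1))) * e2 - C b⁻¹ * this
    refine ⟨a⁻¹, b⁻¹, -(b⁻¹ * c), -(Polynomial.C a⁻¹ *
      p.comp (Polynomial.C b⁻¹ * Polynomial.X + Polynomial.C (-(b⁻¹ * c)))), ?_, ?_, ?_⟩
    · rw [Polynomial.natDegree_neg]
      exact C_mul_deg (comp_deg hp _ _) _
    · have := congrArg (g⁻¹ : Au ℚ) h0
      rw [inv_ap, map_add, map_mul, gC, g_aeval, e3, aeval_lin] at this
      rw [map_neg, map_mul, Polynomial.aeval_C, MvPolynomial.algebraMap_eq]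
      linear_combination (-((g⁻¹ : Au ℚ) (X 0))) * e1 - C a⁻¹ * this
    · rw [e3]

theorem tri_mono {d d' : ℕ} (h : d ≤ d') {t : Au ℚ} (ht : Tri d t) : Tri d' t := by
  obtain ⟨a, b, c, p, hp, h0, h1⟩ := ht
  exact ⟨a, b, c, p, hp.trans h, h0, h1⟩

theorem tri_of_mem {t : Au ℚ} (ht : t ∈ triG (⊤ : Subfield ℚ)) : ∃ d, Tri d t := by
  obtain ⟨a, b, c, p, h0, h1⟩ := ht
  exact ⟨_, a, b, c, p.map (⊤ : Subfield ℚ).subtype, le_rfl, h0, h1⟩

/-- finitely generated groups of triangular automorphisms have bounded degree -/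
theorem t_TRF : S_TRF := by
  intro G _ τ hG h
  obtain ⟨S, hS⟩ := hG.out
  choose D hD using fun g => tri_of_mem (h g)
  refine ⟨S.sup D, fun g => ?_⟩
  have h1 : Subgroup.closure (S : Set G) ≤ (TriSub (S.sup D)).comap τ := by
    rw [Subgroup.closure_le]
    intro s hs
    exact tri_mono (Finset.le_sup (f := D) hs) (hD s)
  have h2 : g ∈ (TriSub (S.sup D)).comap τ := h1 (by rw [hS]; exact Subgroup.mem_top g)
  exact h2

end Pool.Agent.U293.FXP.TRF
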