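import Pool.Agent.U293.FX.Stm

/-!
# Project FX, package TRI: groups of integral triangular automorphisms of bounded degree
-/

set_option autoImplicit false
set_option linter.unusedSectionVars false

namespace Pool.Agent.U293.FXP.TRI

open U722.FF MvPolynomial Pool.Agent.U293.PA Pool.Agent.U293.FC Pool.Agent.U293.FX

/-! ### numbers -/

/-- the integers in `ℚ` -/
abbrev R : Subring ℚ := Dh ℤ ℚ

theorem memR {q : ℚ} : q ∈ R ↔ ∃ z : ℤ, (z : ℚ) = q := Iff.rfl

theorem int_mem (z : ℤ) : (z : ℚ) ∈ R := ⟨z, rfl⟩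

theorem one_le_abs {q : ℚ} (h : q ∈ R) (h0 : q ≠ 0) : 1 ≤ |q| := by
  obtain ⟨z, rfl⟩ := memR.1 h
  have hz : z ≠ 0 := by
    rintro rfl
    simp at h0
  have := Int.one_le_abs hz
  exact_mod_cast this

theorem unit_aux {K u : ℚ} (h : ∀ n : ℕ, K * u ^ n ∈ R) (hK : K ≠ 0) (hu : u ≠ 0) :
    1 ≤ |u| := by
  by_contra hlt
  push Not at hlt
  have hKp : 0 < |K| := abs_pos.2 hK
  obtain ⟨n, hn⟩ := exists_pow_lt_of_lt_one (show (0 : ℚ) < 1 / |K| by positivity) hlt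
  have h1 := one_le_abs (h n) (mul_ne_zero hK (pow_ne_zero _ hu))
  rw [abs_mul, abs_pow] at h1
  rw [lt_div_iff₀ hKp] at hn
  linarith

theorem unit_pm {K u v : ℚ} (h : ∀ n : ℕ, K * u ^ n ∈ R) (h' : ∀ n : ℕ, K * v ^ n ∈ R)
    (hK : K ≠ 0) (huv : u * v = 1) : u = 1 ∨ u = -1 := by
  have hu : u ≠ 0 := left_ne_zero_of_mul_eq_one huv
  have hv : v ≠ 0 := right_ne_zero_of_mul_eq_one huv
  have h1 := unit_aux h hK hu
  have h2 := unit_aux h' hK hv
  have h3 : |u| * |v| = 1 := by rw [← abs_mul, huv, abs_one]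
  have h4 : |u| = 1 := by nlinarith
  exact eq_or_eq_neg_of_abs_eq h4

theorem exists_den (P : Rg ℚ) : ∃ N : ℚ, N ≠ 0 ∧ N ∈ R ∧ C N * P ∈ SR R := by
  induction P using MvPolynomial.induction_on with
  | C a =>
    refine ⟨a.den, by exact_mod_cast a.den_ne_zero, ⟨(a.den : ℤ), by simp⟩, ?_⟩
    rw [← C_mul, mul_comm, Rat.mul_den_eq_num]
    exact C_mem (D := ℤ) a.num
  | add p q hp hq =>
    obtain ⟨N, h1, h2, h3⟩ := hp
    obtain ⟨M, h4, h5, h6⟩ := hq
    refine ⟨N * M, mul_ne_zero h1 h4, mul_mem h2 h5, ?_⟩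
    have : C (N * M) * (p + q) = C M * (C N * p) + C N * (C M * q) := by
      rw [C_mul]; ring
    rw [this]
    obtain ⟨n, rfl⟩ := memR.1 h2
    obtain ⟨m, rfl⟩ := memR.1 h5
    exact add_mem (mul_mem (C_mem (D := ℤ) m) h3) (mul_mem (C_mem (D := ℤ) n) h6)
  | mul_X p i hp =>
    obtain ⟨N, h1, h2, h3⟩ := hp
    refine ⟨N, h1, h2, ?_⟩
    rw [← mul_assoc]
    exact mul_mem h3 ⟨X i, map_X _ _⟩

theorem exists_fun_den (Ψ : Rg ℚ →ₗ[ℚ] ℚ) (S : Finset (Fin 2 →₀ ℕ)) :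
    ∃ M : ℚ, M ≠ 0 ∧ ∀ P : Rg ℚ, (∀ m, m ∉ S → coeff m P = 0) → P ∈ SR R → M * Ψ P ∈ R := by
  classical
  refine ⟨∏ m ∈ S, ((Ψ (monomial m 1)).den : ℚ), ?_, ?_⟩
  · exact Finset.prod_ne_zero_iff.2 fun m _ => by exact_mod_cast (Ψ (monomial m 1)).den_ne_zero
  · intro P hPS0 hP
    have hPS : P.support ⊆ S := fun m hm => by
      by_contra h
      exact (mem_support_iff.1 hm) (hPS0 m h)
    rw [mem_SR] at hP
    have h1 : Ψ P = ∑ m ∈ S, coeff m P * Ψ (monomial m 1) := by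
      conv_lhs => rw [← MvPolynomial.support_sum_monomial_coeff P]
      rw [map_sum]
      rw [← Finset.sum_subset hPS]
      · refine Finset.sum_congr rfl fun m _ => ?_
        rw [← smul_eq_mul, ← map_smul, smul_monomial, smul_eq_mul, mul_one]
      · intro m _ hm
        rw [notMem_support_iff.1 hm, zero_mul]
    rw [h1, Finset.mul_sum]
    refine sum_mem fun m hm => ?_
    have h2 : (∏ m ∈ S, ((Ψ (monomial m 1)).den : ℚ)) * (coeff m P * Ψ (monomial m 1)) =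
        coeff m P * ((∏ k ∈ S.erase m, ((Ψ (monomial k 1)).den : ℚ)) *
          (Ψ (monomial m 1) * ((Ψ (monomial m 1)).den : ℚ))) := by
      rw [← Finset.mul_prod_erase S _ hm]
      ring
    rw [h2, Rat.mul_den_eq_num]
    refine mul_mem (hP m) (mul_mem (prod_mem fun k _ => ?_) (int_mem _))
    exact ⟨((Ψ (monomial k 1)).den : ℤ), by simp⟩

/-! ### the two functions -/

theorem Y_lin (x : Au ℚ) {b c b' c' : ℚ}
    (h : C b * x (X 1) + C c = C b' * x (X 1) + C c') : b = b' ∧ c = c' := by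
  have h1 : (C b * X 1 + C c : Rg ℚ) = C b' * X 1 + C c' := by
    apply x.injective
    rw [map_add, map_add, map_mul, map_mul, gC, gC, gC, gC]
    exact h
  have h2 := lin_ext (a := 0) (a' := 0) (b := b) (b' := b') (e := c) (e' := c')
    (by simpa using h1)
  exact ⟨h2.2.1, h2.2.2⟩

theorem exists_psi (x : Au ℚ) : ∃ Ψ : Rg ℚ →ₗ[ℚ] ℚ, Ψ (x (X 0)) ≠ 0 ∧
    ∀ p : Polynomial ℚ, Ψ (Polynomial.aeval (x (X 1)) p) = 0 := by
  have hU : x (X 0) ∉ LinearMap.range (Polynomial.aeval (R := ℚ) (x (X 1))).toLinearMap := by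
    rintro ⟨p, hp⟩
    have h1 : (Polynomial.aeval (X 1 : Rg ℚ) p) = X 0 := by
      apply x.injective
      rw [g_aeval]
      exact hp
    have h2 := congrArg (eval (fun _ => (0 : ℚ))) h1
    have h3 := congrArg (eval (fun i : Fin 2 => if i = 0 then (1 : ℚ) else 0)) h1
    have e : ∀ v : Fin 2 → ℚ, eval v (Polynomial.aeval (X 1 : Rg ℚ) p) = p.eval (v 1) := by
      intro v
      rw [← MvPolynomial.coe_aeval_eq_eval]
      change aeval v (Polynomial.aeval (X 1 : Rg ℚ) p) = _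
      rw [← Polynomial.aeval_algHom_apply, aeval_X]
      simp [Polynomial.aeval_def]
    rw [e] at h2 h3
    simp at h2 h3
    rw [h2] at h3
    exact absurd h3 (by norm_num)
  obtain ⟨Ψ, h1, h2⟩ := Submodule.exists_le_ker_of_notMem hU
  exact ⟨Ψ, h1, fun p => h2 ⟨p, rfl⟩⟩

theorem exists_psi1 (x : Au ℚ) : ∃ Ψ : Rg ℚ →ₗ[ℚ] ℚ, Ψ (x (X 1)) ≠ 0 ∧
    ∀ e : ℚ, Ψ (C e) = 0 := by
  have hU : x (X 1) ∉ Submodule.span ℚ {(1 : Rg ℚ)} := by
    intro h
    obtain ⟨a, ha⟩ := Submodule.mem_span_singleton.1 h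
    have h1 := Y_lin x (b := 1) (c := 0) (b' := 0) (c' := a) (by
      rw [← ha, smul_eq_C_mul]
      simp)
    exact one_ne_zero h1.1
  obtain ⟨Ψ, h1, h2⟩ := Submodule.exists_le_ker_of_notMem hU
  refine ⟨Ψ, h1, fun e => ?_⟩
  have h3 : (C e : Rg ℚ) = e • 1 := by rw [smul_eq_C_mul, mul_one]
  rw [h3]
  exact h2 (Submodule.smul_mem _ _ (Submodule.mem_span_singleton_self _))

theorem psi_C (Ψ : Rg ℚ →ₗ[ℚ] ℚ) (s : ℚ) (P : Rg ℚ) : Ψ (C s * P) = s * Ψ P := by
  rw [← smul_eq_C_mul, map_smul, smul_eq_mul]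

theorem aeval_lin' (Y : Rg ℚ) (b c : ℚ) (q : Polynomial ℚ) :
    Polynomial.aeval (C b * Y + C c : Rg ℚ) q =
      Polynomial.aeval Y (q.comp (Polynomial.C b * Polynomial.X + Polynomial.C c)) := by
  rw [Polynomial.aeval_comp]
  congr 1
  simp [MvPolynomial.algebraMap_eq]

theorem fix (x : Au ℚ) {t : Au ℚ} (h0 : t (x (X 0)) = x (X 0)) (h1 : t (x (X 1)) = x (X 1)) :
    t = 1 := by
  have h : x⁻¹ * t * x = 1 := by
    apply ext_of
    · rw [AlgEquiv.mul_apply, AlgEquiv.mul_apply, h0, inv_ap]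
      rfl
    · rw [AlgEquiv.mul_apply, AlgEquiv.mul_apply, h1, inv_ap]
      rfl
  have h2 : t = x * (x⁻¹ * t * x) * x⁻¹ := by group
  rw [h2, h]
  group

theorem supp_aeval (Y : Rg ℚ) (d : ℕ) {p : Polynomial ℚ} (hp : p.natDegree ≤ d)
    {m : Fin 2 →₀ ℕ} (hm : ∀ k ∈ Finset.range (d + 1), coeff m (Y ^ k) = 0) :
    coeff m (Polynomial.aeval Y p) = 0 := by
  rw [Polynomial.aeval_eq_sum_range' (show p.natDegree < d + 1 by omega), coeff_sum]
  refine Finset.sum_eq_zero fun k hk => ?_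
  rw [coeff_smul, hm k hk, smul_zero]

section

variable {G : Type} [Group G] {ρ : G →* Au ℚ}

theorem pm_gen (Ψ : Rg ℚ →ₗ[ℚ] ℚ) (Z : Rg ℚ) (hΨ : Ψ Z ≠ 0) (S : Finset (Fin 2 →₀ ℕ))
    (u : G → ℚ) (hu1 : u 1 = 1) (humul : ∀ g h, u (g * h) = u g * u h)
    (hD : ∀ g, ρ g ∈ DR R) (hZ : ∀ g, Ψ (ρ g Z) = u g * Ψ Z)
    (hS : ∀ g m, m ∉ S → coeff m (ρ g Z) = 0) : ∀ g, u g = 1 ∨ u g = -1 := by
  obtain ⟨N, hN0, _, hN⟩ := exists_den Z
  obtain ⟨M, hM0, hM⟩ := exists_fun_den Ψ S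
  have key : ∀ g, (M * N * Ψ Z) * u g ∈ R := by
    intro g
    have h1 : ρ g (C N * Z) = C N * ρ g Z := by rw [map_mul, gC]
    have h2 := hM (ρ g (C N * Z)) (fun m hm => by
      rw [h1, coeff_C_mul, hS g m hm, mul_zero]) (map_SR (hD g).1 hN)
    rw [h1, psi_C, hZ] at h2
    have h3 : (M * N * Ψ Z) * u g = M * (N * (u g * Ψ Z)) := by ring
    rw [h3]
    exact h2
  have hpow : ∀ (g : G) (n : ℕ), u (g ^ n) = u g ^ n := by
    intro g n
    induction n with
    | zero => rw [pow_zero, pow_zero, hu1]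
    | succ n ih => rw [pow_succ, humul, ih, pow_succ]
  intro g
  refine unit_pm (K := M * N * Ψ Z) (u := u g) (v := u g⁻¹) (fun n => ?_) (fun n => ?_)
    (mul_ne_zero (mul_ne_zero hM0 hN0) hΨ) ?_
  · rw [← hpow]; exact key _
  · rw [← hpow]; exact key _
  · rw [← humul, mul_inv_cancel, hu1]

variable (ρ) (x : Au ℚ) (d : ℕ)

/-- the coefficients -/
structure Dat (a b c : G → ℚ) (p : G → Polynomial ℚ) : Prop where
  hp : ∀ g, (p g).natDegree ≤ d
  hU : ∀ g, ρ g (x (X 0)) = C (a g) * x (X 0) + Polynomial.aeval (x (X 1)) (p g)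
  hY : ∀ g, ρ g (x (X 1)) = C (b g) * x (X 1) + C (c g)

theorem exists_dat (hT : ∀ g, Tri d (x⁻¹ * ρ g * x)) : ∃ a b c p, Dat ρ x d a b c p := by
  choose a b c p hp h0 h1 using hT
  refine ⟨a, b, c, p, hp, fun g => ?_, fun g => ?_⟩
  · have h := congrArg x (h0 g)
    rw [AlgEquiv.mul_apply, AlgEquiv.mul_apply, ap_inv] at h
    rw [h, map_add, map_mul, gC, g_aeval]
  · have h := congrArg x (h1 g)
    rw [AlgEquiv.mul_apply, AlgEquiv.mul_apply, ap_inv] at h
    rw [h, map_add, map_mul, gC, gC]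

variable {ρ} {x} {d} {a b c : G → ℚ} {p : G → Polynomial ℚ}

theorem Dat.a_mul (H : Dat ρ x d a b c p) (g h : G) : a (g * h) = a g * a h := by
  obtain ⟨Ψ, hΨ, hΨ0⟩ := exists_psi x
  have e := H.hU (g * h)
  rw [map_mul, AlgEquiv.mul_apply, H.hU h, map_add, map_mul, gC, g_aeval, H.hU g, H.hY g,
    aeval_lin'] at e
  have e2 := congrArg Ψ e
  simp only [map_add, psi_C, hΨ0, add_zero] at e2
  have e3 : (a (g * h) - a g * a h) * Ψ (x (X 0)) = 0 := by linear_combination -e2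
  have := (mul_eq_zero.1 e3).resolve_right hΨ
  linarith

theorem Dat.bc_mul (H : Dat ρ x d a b c p) (g h : G) :
    b (g * h) = b g * b h ∧ c (g * h) = b h * c g + c h := by
  have e := H.hY (g * h)
  rw [map_mul, AlgEquiv.mul_apply, H.hY h, map_add, map_mul, gC, gC, H.hY g] at e
  have e2 := Y_lin x (b := b h * b g) (c := b h * c g + c h) (b' := b (g * h))
    (c' := c (g * h)) (by rw [← e]; simp only [C_mul, C_add]; ring)
  exact ⟨by rw [← e2.1, mul_comm], e2.2.symm⟩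

theorem Dat.a_one (H : Dat ρ x d a b c p) : a 1 = 1 := by
  obtain ⟨Ψ, hΨ, hΨ0⟩ := exists_psi x
  have e := H.hU 1
  rw [map_one, AlgEquiv.one_apply] at e
  have e2 := congrArg Ψ e
  simp only [map_add, psi_C, hΨ0, add_zero] at e2
  have e3 : (a 1 - 1) * Ψ (x (X 0)) = 0 := by linear_combination -e2
  have := (mul_eq_zero.1 e3).resolve_right hΨ
  linarith

theorem Dat.bc_one (H : Dat ρ x d a b c p) : b 1 = 1 ∧ c 1 = 0 := by
  have e := H.hY 1
  rw [map_one, AlgEquiv.one_apply] at e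
  have e2 := Y_lin x (b := 1) (c := 0) (b' := b 1) (c' := c 1) (by rw [← e]; simp)
  exact ⟨e2.1.symm, e2.2.symm⟩

theorem Dat.a_pm (H : Dat ρ x d a b c p) (hD : ∀ g, ρ g ∈ DR R) : ∀ g, a g = 1 ∨ a g = -1 := by
  classical
  obtain ⟨Ψ, hΨ, hΨ0⟩ := exists_psi x
  refine pm_gen (ρ := ρ) Ψ (x (X 0)) hΨ ((x (X 0)).support ∪ (Finset.range (d + 1)).biUnion
    fun k => ((x (X 1)) ^ k).support) a H.a_one H.a_mul hD (fun g => ?_) (fun g m hm => ?_)
  · rw [H.hU g, map_add, psi_C, hΨ0, add_zero]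
  · rw [Finset.mem_union, not_or, Finset.mem_biUnion] at hm
    rw [H.hU g, coeff_add, coeff_C_mul, notMem_support_iff.1 hm.1, mul_zero, zero_add]
    refine supp_aeval _ d (H.hp g) fun k hk => ?_
    by_contra h
    exact hm.2 ⟨k, hk, mem_support_iff.2 h⟩

theorem Dat.b_pm (H : Dat ρ x d a b c p) (hD : ∀ g, ρ g ∈ DR R) : ∀ g, b g = 1 ∨ b g = -1 := by
  classical
  obtain ⟨Ψ, hΨ, hΨ0⟩ := exists_psi1 x
  refine pm_gen (ρ := ρ) Ψ (x (X 1)) hΨ ((x (X 1)).support ∪ {0}) b H.bc_one.1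
    (fun g h => (H.bc_mul g h).1) hD (fun g => ?_) (fun g m hm => ?_)
  · rw [H.hY g, map_add, psi_C, hΨ0, add_zero]
  · rw [Finset.mem_union, not_or, Finset.mem_singleton] at hm
    rw [H.hY g, coeff_add, coeff_C_mul, notMem_support_iff.1 hm.1, mul_zero, zero_add, coeff_C,
      if_neg (fun h => hm.2 h.symm)]

/-- the kernel is finitely generated -/
theorem fg_ker (K : Subgroup G) (hinj : Function.Injective ρ) (hD : ∀ g, ρ g ∈ DR R)
    (hK : ∀ g ∈ K, ρ g (x (X 1)) = x (X 1) ∧ ∃ r : Polynomial ℚ, r.natDegree ≤ d ∧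
      ρ g (x (X 0)) = x (X 0) + Polynomial.aeval (x (X 1)) r)
    (hc : ∀ g h : G, g ∈ K → h ∈ K → g * h = h * g) : Group.FG ↥K := by
  classical
  obtain ⟨N, hN0, hNR, hN⟩ := exists_den (x (X 0))
  obtain ⟨S, hS⟩ : ∃ S : Finset (Fin 2 →₀ ℕ), S = (Finset.range (d + 1)).biUnion
    fun k => ((x (X 1)) ^ k).support := ⟨_, rfl⟩
  have hz : ∀ (g : K) (m : Fin 2 →₀ ℕ), ∃ z : ℤ,
      (z : ℚ) = N * coeff m (ρ g (x (X 0)) - x (X 0)) := by
    intro g m
    have h1 : C N * (ρ g (x (X 0)) - x (X 0)) ∈ SR R := by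
      have h2 : C N * (ρ g (x (X 0)) - x (X 0)) = ρ g (C N * x (X 0)) - C N * x (X 0) := by
        rw [map_mul, gC]; ring
      rw [h2]
      exact sub_mem (map_SR (hD _).1 hN) hN
    have h3 := mem_SR.1 h1 m
    rw [coeff_C_mul] at h3
    exact memR.1 h3
  choose z hz using hz
  have hout : ∀ (g : K) (m : Fin 2 →₀ ℕ), m ∉ S → coeff m (ρ g (x (X 0)) - x (X 0)) = 0 := by
    intro g m hm
    obtain ⟨_, r, hr, h1⟩ := hK g g.2
    rw [h1, add_sub_cancel_left]
    refine supp_aeval _ d hr fun k hk => ?_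
    by_contra h
    apply hm
    rw [hS, Finset.mem_biUnion]
    exact ⟨k, hk, mem_support_iff.2 h⟩
  have hadd : ∀ g h : K, ρ ((g * h : K) : G) (x (X 0)) - x (X 0) =
      (ρ g (x (X 0)) - x (X 0)) + (ρ h (x (X 0)) - x (X 0)) := by
    intro g h
    obtain ⟨_, r, _, h1⟩ := hK h h.2
    rw [Subgroup.coe_mul, map_mul, AlgEquiv.mul_apply, h1, map_add, g_aeval, (hK g g.2).1]
    ring
  have hzadd : ∀ (g h : K) (m : Fin 2 →₀ ℕ), z (g * h) m = z g m + z h m := by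
    intro g h m
    have h1 : ((z (g * h) m : ℤ) : ℚ) = ((z g m + z h m : ℤ) : ℚ) := by
      rw [Int.cast_add, hz, hz, hz, hadd, coeff_add]
      ring
    exact_mod_cast h1
  have hz1 : ∀ m, z 1 m = 0 := by
    intro m
    have h1 := hzadd 1 1 m
    rw [mul_one] at h1
    omega
  let κ : Additive K →+ (S → ℤ) :=
    { toFun := fun g s => z g.toMul s
      map_zero' := by
        funext s
        exact hz1 s
      map_add' := by
        intro g h
        funext s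
        exact hzadd _ _ _ }
  have hκ : Function.Injective κ := by
    rw [injective_iff_map_eq_zero]
    intro g hg
    have h1 : ∀ m, coeff m (ρ (g.toMul : K) (x (X 0)) - x (X 0)) = 0 := by
      intro m
      by_cases hm : m ∈ S
      · have h2 : z g.toMul m = 0 := congrFun hg ⟨m, hm⟩
        have h3 := hz g.toMul m
        rw [h2, Int.cast_zero] at h3
        exact (mul_eq_zero.1 h3.symm).resolve_left hN0
      · exact hout _ m hm
    have h4 : ρ (g.toMul : K) (x (X 0)) = x (X 0) := by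
      rw [← sub_eq_zero]
      ext m
      rw [h1, coeff_zero]
    have h5 : ρ ((g.toMul : K) : G) = 1 := fix x h4 (hK _ (g.toMul : K).2).1
    have h6 : ((g.toMul : K) : G) = 1 := hinj (by rw [h5, map_one])
    exact Subtype.ext h6
  let _ : CommGroup K := { (inferInstance : Group K) with
    mul_comm := fun g h => Subtype.ext (hc g h g.2 h.2) }
  have h7 : Module.Finite ℤ (Additive K) :=
    Module.Finite.of_injective (κ.toIntLinearMap) hκ
  exact GroupFG.iff_add_fg.2 (Module.Finite.iff_addGroup_fg.1 h7)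

theorem t_TRI : S_DI → S_TRI := by
  intro hDI G _ ρ x d hinj hnt hD hT
  obtain ⟨a, b, c, p, H⟩ := exists_dat ρ x d hT
  have hD' : ∀ g, ρ g ∈ DR R := hD
  have ha := H.a_pm hD'
  have hb := H.b_pm hD'
  obtain ⟨N, hN0, hNR, hN⟩ := exists_den (x (X 1))
  have hB : ∀ g, ∃ B : ℤ, (B = 1 ∨ B = -1) ∧ (B : ℚ) = b g := by
    intro g
    rcases hb g with h | h
    · exact ⟨1, Or.inl rfl, by rw [h]; simp⟩
    · exact ⟨-1, Or.inr rfl, by rw [h]; simp⟩
  choose B hB1 hB2 using hB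
  have hCc : ∀ g, ∃ z : ℤ, (z : ℚ) = N * c g := by
    intro g
    have h1 : C (N * c g) ∈ SR R := by
      have h2 : C (N * c g) = ρ g (C N * x (X 1)) - C (b g) * (C N * x (X 1)) := by
        have e : ρ g (C N * x (X 1)) = C N * (C (b g) * x (X 1) + C (c g)) := by
          rw [map_mul, gC, H.hY g]
        rw [e, C_mul]
        ring
      rw [h2, ← hB2 g]
      exact sub_mem (map_SR (hD g).1 hN) (mul_mem (C_mem (D := ℤ) (B g)) hN)
    have h3 := mem_SR.1 h1 0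
    rw [coeff_zero_C] at h3
    exact memR.1 h3
  choose Z hZ using hCc
  have hB3 : ∀ g h, B (g * h) = B g * B h := by
    intro g h
    have h1 : ((B (g * h) : ℤ) : ℚ) = ((B g * B h : ℤ) : ℚ) := by
      rw [Int.cast_mul, hB2, hB2, hB2, (H.bc_mul g h).1]
    exact_mod_cast h1
  have hZ3 : ∀ g h, Z (g * h) = B h * Z g + Z h := by
    intro g h
    have h1 : ((Z (g * h) : ℤ) : ℚ) = ((B h * Z g + Z h : ℤ) : ℚ) := by
      rw [Int.cast_add, Int.cast_mul, hZ, hZ, hZ, hB2, (H.bc_mul g h).2]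
      ring
    exact_mod_cast h1
  have hB0 : B 1 = 1 := by
    have h1 : ((B 1 : ℤ) : ℚ) = ((1 : ℤ) : ℚ) := by rw [hB2, H.bc_one.1]; simp
    exact_mod_cast h1
  have hZ0 : Z 1 = 0 := by
    have h1 : ((Z 1 : ℤ) : ℚ) = ((0 : ℤ) : ℚ) := by rw [hZ, H.bc_one.2]; simp
    exact_mod_cast h1
  let _ : MulAction G ℤ :=
    { smul := fun g m => B g⁻¹ * m + Z g⁻¹
      one_smul := by
        intro m
        change B (1 : G)⁻¹ * m + Z (1 : G)⁻¹ = m
        rw [inv_one, hB0, hZ0]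
        ring
      mul_smul := by
        intro g h m
        change B (g * h)⁻¹ * m + Z (g * h)⁻¹ = B g⁻¹ * (B h⁻¹ * m + Z h⁻¹) + Z g⁻¹
        rw [mul_inv_rev, hB3, hZ3]
        ring }
  obtain ⟨f, hf⟩ : ∃ f : G →* Equiv.Perm ℤ, ∀ g m, f g m = B g⁻¹ * m + Z g⁻¹ :=
    ⟨MulAction.toPermHom G ℤ, fun g m => rfl⟩
  have hker : ∀ g, f g = 1 → ρ g (x (X 1)) = x (X 1) ∧ ∃ r : Polynomial ℚ, r.natDegree ≤ d ∧
      ρ g (x (X 0)) = x (X 0) + Polynomial.aeval (x (X 1)) r := by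
    intro g hg
    have e0 := hf g 0
    have e1 := hf g 1
    rw [hg, Equiv.Perm.one_apply] at e0 e1
    have h2 : Z g⁻¹ = 0 := by linarith
    have h3 : B g⁻¹ = 1 := by linarith
    have h4 : c g⁻¹ = 0 := by
      have := hZ g⁻¹
      rw [h2, Int.cast_zero] at this
      exact (mul_eq_zero.1 this.symm).resolve_left hN0
    have h5 : b g⁻¹ = 1 := by rw [← hB2, h3]; simp
    have h6 : ρ g⁻¹ (x (X 1)) = x (X 1) := by
      rw [H.hY, h4, h5]
      simp
    have h7 : ρ g (x (X 1)) = x (X 1) := by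
      have h8 := congrArg (ρ g) h6
      rw [← AlgEquiv.mul_apply, ← map_mul, mul_inv_cancel, map_one, AlgEquiv.one_apply] at h8
      exact h8.symm
    refine ⟨h7, ?_⟩
    rcases ha g with h8 | h8
    · refine ⟨p g, H.hp g, ?_⟩
      rw [H.hU g, h8]
      simp
    · have h9 : ρ (g ^ 2) = 1 := by
        apply fix x
        · rw [pow_two, map_mul, AlgEquiv.mul_apply, H.hU g, map_add, map_mul, gC, g_aeval, h7,
            H.hU g, h8]
          simp only [C_neg, C_1]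
          ring
        · rw [pow_two, map_mul, AlgEquiv.mul_apply, h7, h7]
      have h10 : g ^ 2 = 1 := hinj (by rw [h9, map_one])
      have h11 : g = 1 := hnt g 2 (by norm_num) h10
      refine ⟨0, by simp, ?_⟩
      rw [h11, map_one, AlgEquiv.one_apply]
      simp
  have hcomm : ∀ g h : G, f g = 1 → f h = 1 → g * h = h * g := by
    intro g h hg hh
    obtain ⟨g1, r, _, g0⟩ := hker g hg
    obtain ⟨h1, s, _, h0⟩ := hker h hh
    apply hinj
    have e : (ρ (h * g))⁻¹ * ρ (g * h) = 1 := by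
      apply fix x
      · rw [AlgEquiv.mul_apply]
        have e1 : ρ (g * h) (x (X 0)) = ρ (h * g) (x (X 0)) := by
          rw [map_mul, map_mul, AlgEquiv.mul_apply, AlgEquiv.mul_apply, h0, g0, map_add, map_add,
            g_aeval, g_aeval, g1, h1, h0, g0]
          ring
        rw [e1, inv_ap]
      · rw [AlgEquiv.mul_apply]
        have e1 : ρ (g * h) (x (X 1)) = ρ (h * g) (x (X 1)) := by
          rw [map_mul, map_mul, AlgEquiv.mul_apply, AlgEquiv.mul_apply, h1, g1, h1]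
        rw [e1, inv_ap]
    exact (inv_mul_eq_one.1 e).symm
  refine hDI G f hnt (fun g => ⟨B g⁻¹, Z g⁻¹, hB1 _, hf g⟩) hcomm ?_
  exact fg_ker (ρ := ρ) (x := x) (d := d) f.ker hinj hD' (fun g hg => hker g hg)
    (fun g h hg hh => hcomm g h hg hh)

end

end Pool.Agent.U293.FXP.TRI
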