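import Pool.Agent.U293.FX.Stm

set_option autoImplicit false

/-! Project FX, package VA: groups with an abelian subgroup of index two. -/

namespace Pool.Agent.U293.FXP.VA

open U722.FF MulAction Pool.Agent.U884.FFP

/-- subgroups of finitely generated abelian groups -/
theorem sub_fg (N : Type) [Group N] (hc : ∀ a b : N, a * b = b * a) (hfg : Group.FG N)
    (H : Subgroup N) : Group.FG ↥H := by
  let _ : CommGroup N := { (inferInstance : Group N) with mul_comm := hc }
  have : AddGroup.FG (Additive N) := GroupFG.iff_add_fg.1 hfg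
  have : Module.Finite ℤ (Additive N) := Module.Finite.iff_addGroup_fg.2 inferInstance
  have h1 : (AddSubgroup.toIntSubmodule (Subgroup.toAddSubgroup H)).FG := IsNoetherian.noetherian _
  have h2 : (Subgroup.toAddSubgroup H).FG := (Submodule.fg_iff_addSubgroup_fg _).mp h1
  have h3 : H.FG := (Subgroup.fg_iff_add_fg H).mpr h2
  exact (Group.fg_iff_subgroup_fg H).mpr h3

/-- a group which injects into a finitely generated abelian group -/
theorem inj_fg {A N : Type} [Group A] [Group N] (hc : ∀ a b : N, a * b = b * a)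
    (hfg : Group.FG N) (f : A →* N) (hf : Function.Injective f) : Group.FG A := by
  have h1 : Group.FG ↥f.range := sub_fg N hc hfg f.range
  have e : ↥f.range ≃* A := (MonoidHom.ofInjective hf).symm
  exact Group.fg_of_surjective (f := e.toMonoidHom) e.surjective

/-- extensions with quotient of order at most two -/
theorem fg_ext {G : Type} [Group G] (ε : G →* ℤˣ) (h : Group.FG ↥ε.ker) : Group.FG G := by
  by_cases ht : ∃ t, ε t ≠ 1
  · obtain ⟨t, ht⟩ := ht
    obtain ⟨S, hS, hSf⟩ := Group.fg_iff.mp h
    rw [Group.fg_iff]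
    refine ⟨ε.ker.subtype '' S ∪ {t}, ?_, (hSf.image _).union (Set.finite_singleton t)⟩
    have h1 : ε.ker ≤ Subgroup.closure (ε.ker.subtype '' S ∪ {t}) := by
      have h2 : (⊤ : Subgroup ↥ε.ker).map ε.ker.subtype = ε.ker := by
        rw [← MonoidHom.range_eq_map, Subgroup.range_subtype]
      calc ε.ker = (⊤ : Subgroup ↥ε.ker).map ε.ker.subtype := h2.symm
        _ = Subgroup.closure (ε.ker.subtype '' S) := by rw [← hS, MonoidHom.map_closure]
        _ ≤ _ := Subgroup.closure_mono Set.subset_union_left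
    have h3 : t ∈ Subgroup.closure (ε.ker.subtype '' S ∪ {t}) :=
      Subgroup.subset_closure (Or.inr rfl)
    rw [eq_top_iff]
    intro g _
    by_cases hg : ε g = 1
    · exact h1 hg
    · have h4 : t⁻¹ * g ∈ ε.ker := by
        rw [MonoidHom.mem_ker, map_mul, map_inv]
        rcases Int.units_eq_one_or (ε g) with h5 | h5
        · exact absurd h5 hg
        · rcases Int.units_eq_one_or (ε t) with h6 | h6
          · exact absurd h6 ht
          · rw [h5, h6, inv_mul_cancel]
      have h5 := Subgroup.mul_mem _ h3 (h1 h4)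
      rwa [mul_inv_cancel_left] at h5
  · push Not at ht
    let i : ↥ε.ker →* G := ε.ker.subtype
    exact Group.fg_of_surjective (f := i) fun g => ⟨⟨g, ht g⟩, rfl⟩

/-- all subgroups are finitely generated -/
def AF (G : Type) [Group G] : Prop := ∀ H : Subgroup G, Group.FG ↥H

theorem AF.top {G : Type} [Group G] (h : AF G) : Group.FG G :=
  Group.fg_of_surjective (hG := h ⊤) (f := (Subgroup.topEquiv : (⊤ : Subgroup G) ≃* G).toMonoidHom)
    (Subgroup.topEquiv : (⊤ : Subgroup G) ≃* G).surjective

theorem AF.sub {G : Type} [Group G] (h : AF G) (K : Subgroup G) : AF ↥K := by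
  intro H
  have e := (H.equivMapOfInjective K.subtype K.subtype_injective).symm
  exact Group.fg_of_surjective (hG := h (H.map K.subtype)) (f := e.toMonoidHom) e.surjective

theorem noTor_sub {G : Type} [Group G] (h : NoTor G) (K : Subgroup G) : NoTor ↥K := by
  intro g k hk hg
  apply Subtype.ext
  refine h g.1 k hk ?_
  have := congrArg Subtype.val hg
  simpa using this

/-- the elements with first coordinate `0` -/
def K1 {G : Type} [Group G] {n : ℕ} (f : G →* Multiplicative (Fin (n + 1) → ℤ)) : Subgroup G :=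
  (K0 n).comap f

theorem ind_step (hT : S_TT) (hA : S_AB) : ∀ (n : ℕ) (G : Type) [Group G], AF G → NoTor G →
    ∀ f : G →* Multiplicative (Fin n → ℤ), (∀ a b : G, f a = 1 → f b = 1 → a * b = b * a) →
      TF G := by
  intro n
  induction n with
  | zero =>
    intro G _ hG hN f hf
    have : Subsingleton (Multiplicative (Fin 0 → ℤ)) := inferInstanceAs (Subsingleton (Fin 0 → ℤ))
    exact hA G (fun a b => hf a b (Subsingleton.elim _ _) (Subsingleton.elim _ _)) hG.top hN
  | succ n ih =>
    intro G _ hG hN f hf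
    let _ : MulAction G LZ := MulAction.compHom LZ f
    have hk : ∀ (g : G) (x : LZ), (g • x).k = x.k + Multiplicative.toAdd (f g) 0 := fun g x => rfl
    have hst : ∀ v : LZ, stabilizer G v = K1 f := by
      intro v
      ext g
      rw [mem_stabilizer_iff]
      change _ ↔ Multiplicative.toAdd (f g) 0 = 0
      constructor
      · intro h
        have := congrArg LZ.k h
        rw [hk] at this
        omega
      · intro h
        apply LZ.ext
        rw [hk, h, add_zero]
    have hTF : TF ↥(K1 f) := by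
      let q : ↥(K1 f) →* ↥(K0 n) :=
        { toFun := fun g => ⟨f g.1, g.2⟩
          map_one' := Subtype.ext (map_one f)
          map_mul' := fun a b => Subtype.ext (map_mul f a.1 b.1) }
      refine ih ↥(K1 f) (hG.sub _) (noTor_sub hN _) ((isoK n).symm.toMonoidHom.comp q) ?_
      intro a b ha hb
      have h1 : ∀ c : ↥(K1 f), ((isoK n).symm.toMonoidHom.comp q) c = 1 → f c.1 = 1 := by
        intro c hc
        have h2 : (isoK n).symm (q c) = 1 := hc
        rw [map_eq_one_iff _ (isoK n).symm.injective] at h2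
        exact congrArg Subtype.val h2
      exact Subtype.ext (hf _ _ (h1 a ha) (h1 b hb))
    apply hT G LZ line hG.top line_tree
    · intro g u v h
      rw [line_adj] at h ⊢
      rw [hk, hk]
      omega
    · intro g u v h h1 h2
      rw [line_adj] at h
      have e1 := congrArg LZ.k h1
      have e2 := congrArg LZ.k h2
      rw [hk] at e1 e2
      omega
    · intro u v h
      have e : stabilizer G u ⊓ stabilizer G v = K1 f := by
        rw [hst, hst, inf_idem]
      rw [e]
      exact ⟨hTF, hG _⟩
    · intro v _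
      rw [hst]
      exact hTF

section Transfer

variable {G : Type} [Group G] (ε : G →* ℤˣ) (hab : ∀ a b : G, ε a = 1 → ε b = 1 → a * b = b * a)
  (t : G) (ht : ε t ≠ 1)

theorem eps_neg {g : G} (h : ε g ≠ 1) : ε g = -1 :=
  (Int.units_eq_one_or (ε g)).resolve_left h

theorem eps_mul_ne {a b : G} (ha : ε a ≠ 1) (hb : ε b ≠ 1) : ε (a * b) = 1 := by
  rw [map_mul, eps_neg ε ha, eps_neg ε hb]
  rfl

theorem eps_conj {u x : G} (hx : ε x = 1) : ε (u * x * u⁻¹) = 1 := by
  rw [map_mul, map_mul, map_inv, hx, mul_one, mul_inv_cancel]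

include hab ht in
theorem conj_eq {u x : G} (hu : ε u ≠ 1) (hx : ε x = 1) : u * x * u⁻¹ = t * x * t⁻¹ := by
  have h1 : ε (u * t⁻¹) = 1 := by
    rw [map_mul, map_inv, eps_neg ε hu, eps_neg ε ht]
    rfl
  have h2 := hab (u * t⁻¹) (t * x * t⁻¹) h1 (eps_conj ε hx)
  calc u * x * u⁻¹ = (u * t⁻¹) * (t * x * t⁻¹) * (u * t⁻¹)⁻¹ := by group
    _ = t * x * t⁻¹ := by rw [h2]; group

open scoped Classical in
/-- the transfer -/
noncomputable def V (s : G) : G := if ε s = 1 then s * (t * s * t⁻¹) else s * s

theorem V_pos {s : G} (h : ε s = 1) : V ε t s = s * (t * s * t⁻¹) := if_pos h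

theorem V_neg {s : G} (h : ε s ≠ 1) : V ε t s = s * s := if_neg h

theorem eps_V (s : G) : ε (V ε t s) = 1 := by
  by_cases h : ε s = 1
  · rw [V_pos ε t h, map_mul, eps_conj ε h, h, one_mul]
  · rw [V_neg ε t h]
    exact eps_mul_ne ε h h

include hab ht in
theorem V_mul (a b : G) : V ε t (a * b) = V ε t a * V ε t b := by
  by_cases ha : ε a = 1
  · by_cases hb : ε b = 1
    · have h1 : ε (a * b) = 1 := by rw [map_mul, ha, hb, one_mul]
      rw [V_pos ε t h1, V_pos ε t ha, V_pos ε t hb]
      have h2 := hab b (t * a * t⁻¹) hb (eps_conj ε ha)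
      calc a * b * (t * (a * b) * t⁻¹) = a * (b * (t * a * t⁻¹)) * (t * b * t⁻¹) := by group
        _ = _ := by rw [h2]; group
    · have h1 : ε (a * b) ≠ 1 := by
        rw [map_mul, ha, one_mul]
        exact hb
      rw [V_neg ε t h1, V_pos ε t ha, V_neg ε t hb, ← conj_eq ε hab t ht hb ha]
      group
  · by_cases hb : ε b = 1
    · have h1 : ε (a * b) ≠ 1 := by
        rw [map_mul, hb, mul_one]
        exact ha
      rw [V_neg ε t h1, V_neg ε t ha, V_pos ε t hb, ← conj_eq ε hab t ht ha hb]
      have h2 := hab (a * b * a⁻¹) (a * a * b) (eps_conj ε hb) (by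
        rw [map_mul, eps_mul_ne ε ha ha, hb, one_mul])
      calc a * b * (a * b) = (a * b * a⁻¹) * (a * a * b) := by group
        _ = _ := by rw [h2]; group
    · have h1 : ε (a * b) = 1 := eps_mul_ne ε ha hb
      rw [V_pos ε t h1, V_neg ε t ha, V_neg ε t hb, ← conj_eq ε hab t ht hb h1]
      have h3 : ε (b * b) = 1 := eps_mul_ne ε hb hb
      have h4 : ε (a * a) = 1 := eps_mul_ne ε ha ha
      have h5 := conj_eq ε hab t ht ha h3
      have h6 := conj_eq ε hab t ht hb h3
      rw [← h6] at h5
      have h7 := hab (a * a) (b * b) h4 h3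
      calc a * b * (b * (a * b) * b⁻¹) = (a * (b * b) * a⁻¹) * (a * a) := by group
        _ = (b * (b * b) * b⁻¹) * (a * a) := by rw [h5]
        _ = (b * b) * (a * a) := by group
        _ = _ := h7.symm

end Transfer

theorem main (hT : S_TT) (hA : S_AB) (G : Type) [Group G] (ε : G →* ℤˣ) (hN : NoTor G)
    (hab : ∀ a b : G, ε a = 1 → ε b = 1 → a * b = b * a) (hfg : Group.FG ↥ε.ker) :
    TF G ∧ Group.FG G := by
  refine ⟨?_, fg_ext ε hfg⟩
  have hcN : ∀ a b : ↥ε.ker, a * b = b * a := fun a b => Subtype.ext (hab _ _ a.2 b.2)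
  by_cases ht : ∃ t, ε t ≠ 1
  · obtain ⟨t, ht⟩ := ht
    have hAF : AF G := by
      intro H
      refine fg_ext (ε.comp H.subtype) ?_
      let i : ↥(ε.comp H.subtype).ker →* ↥ε.ker :=
        { toFun := fun g => ⟨g.1.1, g.2⟩
          map_one' := rfl
          map_mul' := fun _ _ => rfl }
      refine inj_fg hcN hfg i fun a b h => ?_
      have h0 : (i a).1 = (i b).1 := by rw [h]
      have h1 : a.1.1 = b.1.1 := h0
      exact Subtype.ext (Subtype.ext h1)
    obtain ⟨n, ⟨e⟩⟩ := iso_Zn ↥ε.ker hcN hfg (noTor_sub hN _)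
    let W : G →* ↥ε.ker :=
      MonoidHom.mk' (fun s => ⟨V ε t s, eps_V ε t s⟩) fun a b => Subtype.ext (V_mul ε hab t ht a b)
    refine ind_step hT hA n G hAF hN (e.symm.toMonoidHom.comp W) ?_
    have hk : ∀ s : G, (e.symm.toMonoidHom.comp W) s = 1 → ε s = 1 := by
      intro s hs
      have h1 : e.symm (W s) = 1 := hs
      rw [map_eq_one_iff _ e.symm.injective] at h1
      have h2 : V ε t s = 1 := congrArg Subtype.val h1
      by_contra h3
      rw [V_neg ε t h3] at h2
      have h4 := hN s 2 (by norm_num) (by rw [sq]; exact h2)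
      rw [h4, map_one] at h3
      exact h3 rfl
    exact fun a b ha hb => hab a b (hk a ha) (hk b hb)
  · push Not at ht
    exact hA G (fun a b => hab a b (ht a) (ht b)) (fg_ext ε hfg) hN

theorem t_VA : Pool.Agent.U293.FX.S_VA :=
  fun G _ ε hN hab hfg => main U722.FF.TT U722.FF.AB G ε hN hab hfg

end Pool.Agent.U293.FXP.VA
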